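import Mathlib
import Pool.Agent.H57.CP.Targets

/-!
# MP_397744_co, module OAX: isometries with a fixed point have an axis
-/

namespace Pool.Agent.H57.CP.Oax

open Pool.Agent.H57.CP

/-- unit vectors -/
def e (i : Fin 4) : V4 := Pi.single i 1

lemma o_eq : o.1 = e 3 := by
  funext i
  fin_cases i <;> simp [o, e]

lemma mk_o (x : V4) : mk x o.1 = x 3 := by simp [mk, o]

lemma dec (x : V4) : x = x 0 • e 0 + x 1 • e 1 + x 2 • e 2 + x 3 • e 3 := by
  funext i
  fin_cases i <;> simp [e]

lemma app (A : V4 →ₗ[ℝ] V4) (x : V4) (i : Fin 4) :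
    A x i = x 0 * A (e 0) i + x 1 * A (e 1) i + x 2 * A (e 2) i + x 3 * A (e 3) i := by
  conv_lhs => rw [dec x]
  simp only [map_add, map_smul, Pi.add_apply, Pi.smul_apply, smul_eq_mul]

lemma mk_comm (x y : V4) : mk x y = mk y x := by simp only [mk]; ring

/-- data of a Lorentz map which fixes the base point -/
lemma fix3 {A : V4 →ₗ[ℝ] V4} (hA : ∀ x y, mk (A x) (A y) = mk x y) (h : A o.1 = o.1) (x : V4) :
    A x 3 = x 3 := by
  have h1 := hA x o.1
  rw [h, mk_o, mk_o] at h1
  exact h1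

lemma tm (A : V4 →ₗ[ℝ] V4) (i j : Fin 4) : LinearMap.toMatrix' A i j = A (e j) i := by
  rw [LinearMap.toMatrix'_apply]
  congr 2

lemma det4 (A : V4 →ₗ[ℝ] V4) (h3' : ∀ x, A x 3 = x 3) :
    LinearMap.det A = Matrix.det (Matrix.of fun i j : Fin 3 => A (e j.castSucc) i.castSucc) := by
  rw [← LinearMap.det_toMatrix', Matrix.det_succ_row _ (Fin.last 3), Fin.sum_univ_castSucc]
  have h1 : ∀ j : Fin 3, LinearMap.toMatrix' A (Fin.last 3) j.castSucc = 0 := by
    intro j
    rw [tm]
    have := h3' (e j.castSucc)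
    rw [show (Fin.last 3 : Fin 4) = 3 from rfl, this, e, Pi.single_eq_of_ne]
    intro h
    have := congrArg Fin.val h
    simp at this
    omega
  have h2 : LinearMap.toMatrix' A (Fin.last 3) (Fin.last 3) = 1 := by
    rw [tm]
    have := h3' (e 3)
    rw [show (Fin.last 3 : Fin 4) = 3 from rfl, this, e, Pi.single_eq_same]
  simp only [h1, h2]
  simp only [mul_zero, zero_mul, Finset.sum_const_zero, zero_add, mul_one]
  rw [Fin.succAbove_last]
  have h5 : ((-1 : ℝ) ^ (((Fin.last 3 : Fin 4) : ℕ) + ((Fin.last 3 : Fin 4) : ℕ))) = 1 := by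
    simp [Fin.last]
    norm_num
  rw [h5, one_mul]
  congr 1

/-- orthogonality of the spatial part -/
lemma orth {A : V4 →ₗ[ℝ] V4} (hA : ∀ x y, mk (A x) (A y) = mk x y) (h3' : ∀ x, A x 3 = x 3) (x y : V4) :
    A x 0 * A y 0 + A x 1 * A y 1 + A x 2 * A y 2 = x 0 * y 0 + x 1 * y 1 + x 2 * y 2 := by
  have h := hA x y
  simp only [mk, h3'] at h
  linarith

lemma e_apply (i j : Fin 4) : e i j = if j = i then 1 else 0 := by
  simp [e, Pi.single_apply]

/-- an eigenvector in space -/
lemma eig {A : V4 →ₗ[ℝ] V4} (hA : ∀ x y, mk (A x) (A y) = mk x y) (h3' : ∀ x, A x 3 = x 3) :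
    (LinearMap.det A = 1 ∨ LinearMap.det A = -1) ∧
    ∃ u : V4, mk u u = -1 ∧ u 3 = 0 ∧ A u = LinearMap.det A • u := by
  set M : Matrix (Fin 3) (Fin 3) ℝ := Matrix.of fun i j : Fin 3 => A (e j.castSucc) i.castSucc with hM
  have hdet : LinearMap.det A = M.det := det4 A h3'
  have hMM : M.transpose * M = 1 := by
    ext i j
    rw [Matrix.mul_apply, Fin.sum_univ_three]
    simp only [Matrix.transpose_apply, hM, Matrix.of_apply]
    have := orth hA h3' (e i.castSucc) (e j.castSucc)
    have h0 : ((0 : Fin 3).castSucc : Fin 4) = 0 := rfl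
    have h1 : ((1 : Fin 3).castSucc : Fin 4) = 1 := rfl
    have h2 : ((2 : Fin 3).castSucc : Fin 4) = 2 := rfl
    rw [h0, h1, h2, this]
    fin_cases i <;> fin_cases j <;> simp [e_apply]
  have hMM' : M * M.transpose = 1 := mul_eq_one_comm.mp hMM
  have hd2 : M.det * M.det = 1 := by
    have := congrArg Matrix.det hMM
    rwa [Matrix.det_mul, Matrix.det_transpose, Matrix.det_one] at this
  have hd : M.det = 1 ∨ M.det = -1 := by
    rwa [mul_self_eq_one_iff] at hd2
  refine ⟨by rwa [hdet], ?_⟩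
  have h0 : (M - M.det • (1 : Matrix (Fin 3) (Fin 3) ℝ)).det = 0 := by
    have h1 : M - M.det • (1 : Matrix (Fin 3) (Fin 3) ℝ) =
        M * (-(M.det • (M - M.det • (1 : Matrix (Fin 3) (Fin 3) ℝ)))).transpose := by
      have : (-(M.det • (M - M.det • (1 : Matrix (Fin 3) (Fin 3) ℝ)))).transpose =
          1 - M.det • M.transpose := by
        rw [Matrix.transpose_neg, Matrix.transpose_smul, Matrix.transpose_sub, Matrix.transpose_smul,
          Matrix.transpose_one, smul_sub, smul_smul, hd2, one_smul]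
        abel
      rw [this, mul_sub, mul_one, Matrix.mul_smul, hMM']
    have h2 := congrArg Matrix.det h1
    rw [Matrix.det_mul, Matrix.det_transpose, Matrix.det_neg, Matrix.det_smul] at h2
    simp only [Fintype.card_fin] at h2
    have h3 : M.det * ((-1) ^ 3 * (M.det ^ 3 * (M - M.det • (1 : Matrix (Fin 3) (Fin 3) ℝ)).det)) =
        - (M.det * M.det) ^ 2 * (M - M.det • (1 : Matrix (Fin 3) (Fin 3) ℝ)).det := by ring
    rw [h3, hd2] at h2
    linarith
  obtain ⟨v, hv, hMv⟩ := Matrix.exists_mulVec_eq_zero_iff.mpr h0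
  have hMv' : M.mulVec v = M.det • v := by
    rw [Matrix.sub_mulVec, Matrix.smul_mulVec, Matrix.one_mulVec, sub_eq_zero] at hMv
    exact hMv
  set N : ℝ := v 0 ^ 2 + v 1 ^ 2 + v 2 ^ 2 with hN
  have hNpos : 0 < N := by
    rcases (by positivity : 0 ≤ N).lt_or_eq with h | h
    · exact h
    · exfalso
      apply hv
      have a0 : v 0 = 0 := by nlinarith [sq_nonneg (v 0), sq_nonneg (v 1), sq_nonneg (v 2)]
      have a1 : v 1 = 0 := by nlinarith [sq_nonneg (v 0), sq_nonneg (v 1), sq_nonneg (v 2)]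
      have a2 : v 2 = 0 := by nlinarith [sq_nonneg (v 0), sq_nonneg (v 1), sq_nonneg (v 2)]
      funext i
      fin_cases i
      · exact a0
      · exact a1
      · exact a2
  set c : ℝ := (Real.sqrt N)⁻¹ with hc
  have hc2 : c * c * N = 1 := by
    rw [hc, ← mul_inv, Real.mul_self_sqrt hNpos.le, inv_mul_cancel₀ hNpos.ne']
  have hcomp : ∀ i : Fin 3, M.mulVec v i = v 0 * A (e 0) i.castSucc + v 1 * A (e 1) i.castSucc +
      v 2 * A (e 2) i.castSucc := by
    intro i
    rw [Matrix.mulVec, dotProduct, Fin.sum_univ_three]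
    simp only [hM, Matrix.of_apply]
    have h0 : ((0 : Fin 3).castSucc : Fin 4) = 0 := rfl
    have h1 : ((1 : Fin 3).castSucc : Fin 4) = 1 := rfl
    have h2 : ((2 : Fin 3).castSucc : Fin 4) = 2 := rfl
    rw [h0, h1, h2]
    ring
  refine ⟨![c * v 0, c * v 1, c * v 2, 0], ?_, ?_, ?_⟩
  · simp only [mk, Matrix.cons_val]
    linear_combination -hc2
  · simp
  · rw [hdet]
    have key : ∀ i : Fin 3, A ![c * v 0, c * v 1, c * v 2, 0] i.castSucc = M.det * (c * v i) := by
      intro i
      rw [app]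
      simp only [Matrix.cons_val]
      have h1 := hcomp i
      rw [hMv', Pi.smul_apply, smul_eq_mul] at h1
      linear_combination -c * h1
    funext i
    rw [Pi.smul_apply, smul_eq_mul]
    have k0 := key 0
    have k1 := key 1
    have k2 := key 2
    have k3 := h3' ![c * v 0, c * v 1, c * v 2, 0]
    fin_cases i
    · simpa using k0
    · simpa using k1
    · simpa using k2
    · simpa using k3

/-- an isometry which moves a given direction to the third axis -/
lemma conj (h1 : T_LOR) (u : V4) (hu : mk u u = -1) (hu3 : u 3 = 0) :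
    ∃ D : V4 →ₗ[ℝ] V4, Lor D ∧ D * D = 1 ∧ D o.1 = o.1 ∧ D u = e 2 := by
  by_cases hue : u = e 2
  · refine ⟨1, ⟨fun x y => rfl, fun x => x.2.2⟩, one_mul 1, rfl, hue⟩
  · have hu' : u 0 ^ 2 + u 1 ^ 2 + u 2 ^ 2 = 1 := by
      simp only [mk, hu3] at hu
      linarith
    set N : ℝ := 2 - 2 * u 2 with hN
    have hNpos : 0 < N := by
      rcases lt_or_ge 0 N with h | h
      · exact h
      · exfalso
        apply hue
        have h2 : 1 ≤ u 2 := by linarith
        have h3 : u 2 = 1 := by nlinarith [sq_nonneg (u 0), sq_nonneg (u 1)]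
        have a0 : u 0 = 0 := by
          have : u 0 ^ 2 = 0 := by nlinarith [sq_nonneg (u 0), sq_nonneg (u 1)]
          exact pow_eq_zero_iff (two_ne_zero) |>.mp this
        have a1 : u 1 = 0 := by
          have : u 1 ^ 2 = 0 := by nlinarith [sq_nonneg (u 0), sq_nonneg (u 1)]
          exact pow_eq_zero_iff (two_ne_zero) |>.mp this
        funext i
        fin_cases i
        · simpa [e] using a0
        · simpa [e] using a1
        · simpa [e] using h3
        · simpa [e] using hu3
    set c : ℝ := (Real.sqrt N)⁻¹ with hc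
    have hc2 : c * c * N = 1 := by
      rw [hc, ← mul_inv, Real.mul_self_sqrt hNpos.le, inv_mul_cancel₀ hNpos.ne']
    have hn : mk (c • (u - e 2)) (c • (u - e 2)) = -1 := by
      simp only [mk, Pi.smul_apply, Pi.sub_apply, smul_eq_mul, e_apply, hu3]
      simp
      linear_combination -hc2 - c * c * hu'
    obtain ⟨hL, hLL⟩ := h1.2.2 _ hn
    refine ⟨refl (c • (u - e 2)), hL, hLL, ?_, ?_⟩
    · funext i
      simp only [refl, LinearMap.coe_mk, AddHom.coe_mk]
      have : mk (c • (u - e 2)) o.1 = 0 := by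
        rw [mk_o]
        simp [hu3, e_apply]
      rw [this]
      ring
    · have hmk : mk (c • (u - e 2)) u = - c * (1 - u 2) := by
        simp only [mk, Pi.smul_apply, Pi.sub_apply, smul_eq_mul, e_apply, hu3]
        simp
        linear_combination -c * hu'
      funext i
      simp only [refl, LinearMap.coe_mk, AddHom.coe_mk, hmk, Pi.smul_apply, Pi.sub_apply, smul_eq_mul]
      have h4 : c * c * (1 - u 2) = 1 / 2 := by linear_combination hc2 / 2
      linear_combination -2 * (u i - e 2 i) * h4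

lemma exists_angle (p r : ℝ) (h : p ^ 2 + r ^ 2 = 1) : ∃ t : ℝ, Real.cos t = p ∧ Real.sin t = r := by
  set z : ℂ := ⟨p, r⟩ with hz
  have hn : ‖z‖ = 1 := by
    rw [Complex.norm_def, Complex.normSq_apply]
    simp only [hz]
    rw [show p * p + r * r = 1 by linarith, Real.sqrt_one]
  have hz0 : z ≠ 0 := by
    intro h0
    rw [h0, norm_zero] at hn
    exact zero_ne_one hn
  refine ⟨z.arg, ?_, ?_⟩
  · rw [Complex.cos_arg hz0, hn, div_one]
  · rw [Complex.sin_arg, hn, div_one]

lemma det_rotlike (B : V4 →ₗ[ℝ] V4) (d : ℝ) (h3 : ∀ x, B x 3 = x 3) (h2 : ∀ x, B x 2 = d * x 2)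
    (hB2 : B (e 2) = d • e 2) :
    LinearMap.det B = (B (e 0) 0 * B (e 1) 1 - B (e 0) 1 * B (e 1) 0) * d := by
  rw [det4 B h3, Matrix.det_fin_three]
  simp only [Matrix.of_apply]
  have c0 : ((0 : Fin 3).castSucc : Fin 4) = 0 := rfl
  have c1 : ((1 : Fin 3).castSucc : Fin 4) = 1 := rfl
  have c2 : ((2 : Fin 3).castSucc : Fin 4) = 2 := rfl
  rw [c0, c1, c2, h2, h2, h2, hB2]
  simp only [Pi.smul_apply, smul_eq_mul, e_apply]
  simp
  ring

theorem oax (h1 : T_LOR) (h2 : T_MKI) (h3 : T_EXT) (_h4 : T_SPN) : T_OAX := by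
  intro g hg hgo
  obtain ⟨A, hA, hAg⟩ := h3 g hg
  have hAo : A o.1 = o.1 := by rw [hAg o, hgo]
  have hA3 := fix3 hA.1 hAo
  obtain ⟨hd, u, hu, hu3, hAu⟩ := eig hA.1 hA3
  obtain ⟨D, hD, hDD, hDo, hDu⟩ := conj h1 u hu hu3
  obtain ⟨C, hC, hDC⟩ := h2 D hD
  have hCo : C o = o := by
    apply Subtype.ext
    rw [← hDC o, hDo]
  have hDDx : ∀ x, D (D x) = x := fun x => by
    have := congrArg (fun f : V4 →ₗ[ℝ] V4 => f x) hDD
    exact this
  set d := LinearMap.det A with hdd
  set B : V4 →ₗ[ℝ] V4 := D * A * D with hB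
  have hBx : ∀ x, B x = D (A (D x)) := fun x => rfl
  have hBmk : ∀ x y, mk (B x) (B y) = mk x y := by
    intro x y
    rw [hBx, hBx, hD.1, hA.1, hD.1]
  have hBo : B o.1 = o.1 := by rw [hBx, hDo, hAo, hDo]
  have hB3 := fix3 hBmk hBo
  have hB2 : B (e 2) = d • e 2 := by
    have h5 : D (e 2) = u := by rw [← hDu, hDDx]
    rw [hBx, h5, hAu, map_smul, hDu]
  have hd2 : d * d = 1 := by rcases hd with h | h <;> rw [h] <;> norm_num
  have hB2' : ∀ x, B x 2 = d * x 2 := by
    intro x
    have h5 := orth hBmk hB3 x (e 2)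
    rw [hB2] at h5
    simp only [Pi.smul_apply, smul_eq_mul, e_apply] at h5
    simp at h5
    linear_combination d * h5 - B x 2 * hd2
  have hdetB : LinearMap.det B = d := by
    have h5 : LinearMap.det D * LinearMap.det D = 1 := by
      rw [← map_mul, hDD, map_one]
    rw [hB, map_mul, map_mul]
    linear_combination d * h5
  have hdr := det_rotlike B d hB3 hB2' hB2
  rw [hdetB] at hdr
  have hpr := orth hBmk hB3 (e 0) (e 0)
  have hst := orth hBmk hB3 (e 1) (e 1)
  have hps := orth hBmk hB3 (e 0) (e 1)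
  have z0 : B (e 0) 2 = 0 := by rw [hB2']; simp [e_apply]
  have z1 : B (e 1) 2 = 0 := by rw [hB2']; simp [e_apply]
  rw [z0] at hpr hps
  rw [z1] at hst hps
  simp [e_apply] at hpr hst hps
  set p := B (e 0) 0 with hp
  set r := B (e 0) 1 with hr
  set s := B (e 1) 0 with hs
  set q := B (e 1) 1 with hq
  have hdet1 : p * q - r * s = 1 := by
    linear_combination (-d) * hdr - (p * q - r * s - 1) * hd2
  have hsum : (s + r) ^ 2 + (q - p) ^ 2 = 0 := by
    linear_combination hpr + hst - 2 * hdet1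
  have hsr : s = -r := by nlinarith [sq_nonneg (s + r), sq_nonneg (q - p)]
  have hqp : q = p := by nlinarith [sq_nonneg (s + r), sq_nonneg (q - p)]
  obtain ⟨t, ht1, ht2⟩ := exists_angle p r (by linarith)
  have hBrot : B = rot t d := by
    apply LinearMap.ext
    intro x
    funext i
    simp only [rot, LinearMap.coe_mk, AddHom.coe_mk]
    rw [ht1, ht2]
    fin_cases i
    · have h6 : B x 0 = p * x 0 - r * x 1 := by
        rw [app, ← hp, ← hs, hB2]
        have : B (e 3) 0 = 0 := by
          rw [← o_eq, hBo]; simp [o]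
        rw [this, hsr]
        simp [e_apply]
        ring
      simpa using h6
    · have h6 : B x 1 = r * x 0 + p * x 1 := by
        rw [app, ← hr, ← hq, hB2]
        have : B (e 3) 1 = 0 := by
          rw [← o_eq, hBo]; simp [o]
        rw [this, hqp]
        simp [e_apply]
        ring
      simpa using h6
    · simpa using hB2' x
    · simpa using hB3 x
  refine ⟨C, t, d, hC, hCo, hd, ?_⟩
  intro x
  rw [← hBrot, hBx]
  have h6 : D x.1 = (C⁻¹ x).1 := by
    have h7 := hDC (C⁻¹ x)
    rw [show C (C⁻¹ x) = x from C.apply_symm_apply x] at h7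
    rw [← h7, hDDx]
  rw [h6, hAg, hDC]
  rfl

end Pool.Agent.H57.CP.Oax
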