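import Mathlib
import Pool.Agent.H8.CP.Oax

/-!
# MP_397744_co, module DNS: large scale density
-/

namespace Pool.Agent.H57.CP.Dns

open Pool.Agent.H57.CP Pool.Agent.H57.CP.Oax

lemma rot_mul (s t : ℝ) : rot s 1 * rot t 1 = rot (s + t) 1 := by
  apply LinearMap.ext
  intro x
  funext i
  show rot s 1 (rot t 1 x) i = _
  simp only [rot, LinearMap.coe_mk, AddHom.coe_mk, Matrix.cons_val, Real.cos_add, Real.sin_add]
  fin_cases i
  · simp
    ring
  · simp
    ring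
  · simp
  · simp

lemma rot_zero : rot 0 1 = 1 := by
  apply LinearMap.ext
  intro x
  funext i
  show rot 0 1 x i = x i
  simp only [rot, LinearMap.coe_mk, AddHom.coe_mk, Real.cos_zero, Real.sin_zero]
  fin_cases i <;> simp

lemma rot_pow (t : ℝ) (k : ℕ) : rot t 1 ^ k = rot (k * t) 1 := by
  induction k with
  | zero => simp [rot_zero]
  | succ k ih =>
    rw [pow_succ, ih, rot_mul]
    congr 1
    push_cast
    ring

variable {a b : ℕ} {σ : (cm a b).Group →* Module.End ℝ V4}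

lemma refl_al2 (x : V4) : refl (al a b 2) x = ![x 0, -x 1, x 2, x 3] := by
  funext i
  simp only [refl, LinearMap.coe_mk, AddHom.coe_mk, mk, al, Matrix.cons_val]
  fin_cases i <;> simp
  ring

lemma sig12 (hσ : Sig a b σ) (hb : (b : ℝ) ≠ 0) : σ (sm a b 1 * sm a b 2) = rot (Real.pi / b) 1 := by
  rw [map_mul, hσ, hσ]
  apply LinearMap.ext
  intro x
  show refl (al a b 1) (refl (al a b 2) x) = _
  rw [refl_al2]
  have h1 : Real.pi / b = 2 * (Real.pi / (2 * b)) := by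
    field_simp
  have hsc := Real.sin_sq_add_cos_sq (Real.pi / (2 * b))
  funext i
  simp only [refl, rot, LinearMap.coe_mk, AddHom.coe_mk, mk, al, Matrix.cons_val, h1, Real.cos_two_mul,
    Real.sin_two_mul]
  fin_cases i
  · simp
    linear_combination (-2 * x 0) * hsc
  · simp
    ring
  · simp
  · simp

lemma sig02o (hσ : Sig a b σ) (hc : 1 < c0 a b) : σ (sm a b 0 * sm a b 2) o.1 =
    ![2 * Real.sqrt (c0 a b ^ 2 - 1) * c0 a b, 0, 0, 2 * c0 a b ^ 2 - 1] := by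
  rw [map_mul, hσ, hσ]
  show refl (al a b 0) (refl (al a b 2) o.1) = _
  have hs : Real.sqrt (c0 a b ^ 2 - 1) ^ 2 = c0 a b ^ 2 - 1 := Real.sq_sqrt (by nlinarith)
  rw [refl_al2]
  funext i
  simp only [refl, LinearMap.coe_mk, AddHom.coe_mk, mk, al, Matrix.cons_val, o]
  fin_cases i
  · simp
  · simp
  · simp
  · simp
    linear_combination 2 * hs

/-- a direction which is close to a given one -/
lemma near (b : ℕ) (hb : 0 < b) (r θ : ℝ) (hr : 0 ≤ r) : ∃ k : ℕ,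
    r * Real.cos (Real.pi / (2 * b)) ≤
      (r * Real.cos θ) * Real.cos (k * (Real.pi / b)) + (r * Real.sin θ) * Real.sin (k * (Real.pi / b)) := by
  have hb' : (0 : ℝ) < b := by exact_mod_cast hb
  obtain ⟨m, hm⟩ : ∃ m : ℕ, 0 ≤ θ + m * (2 * Real.pi) := by
    obtain ⟨m, hm⟩ := exists_nat_ge (-θ)
    refine ⟨m, ?_⟩
    have h1 : (m : ℝ) * 1 ≤ m * (2 * Real.pi) :=
      mul_le_mul_of_nonneg_left (by linarith [Real.pi_gt_three]) (Nat.cast_nonneg m)
    linarith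
  set θ' := θ + m * (2 * Real.pi) with hθ'
  have hcos : Real.cos θ' = Real.cos θ := Real.cos_add_nat_mul_two_pi θ m
  have hsin : Real.sin θ' = Real.sin θ := Real.sin_add_nat_mul_two_pi θ m
  set y := θ' * b / Real.pi with hy
  have hy0 : 0 ≤ y := by positivity
  have hround := abs_sub_round y
  have hround0 : 0 ≤ round y := by
    rw [round_eq]
    exact Int.floor_nonneg.mpr (by linarith)
  obtain ⟨k, hk⟩ := Int.eq_ofNat_of_zero_le hround0
  refine ⟨k, ?_⟩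
  have h1 : (r * Real.cos θ) * Real.cos (k * (Real.pi / b)) + (r * Real.sin θ) * Real.sin (k * (Real.pi / b)) =
      r * Real.cos (θ' - k * (Real.pi / b)) := by
    rw [Real.cos_sub, hcos, hsin]
    ring
  rw [h1]
  apply mul_le_mul_of_nonneg_left _ hr
  rw [← Real.cos_abs (θ' - k * (Real.pi / b))]
  have h2 : |θ' - k * (Real.pi / b)| ≤ Real.pi / (2 * b) := by
    have h3 : θ' - k * (Real.pi / b) = (Real.pi / b) * (y - (round y : ℤ)) := by
      rw [hk, hy]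
      push_cast
      field_simp
    rw [h3, abs_mul, abs_of_pos (by positivity)]
    calc Real.pi / b * |y - (round y : ℤ)| ≤ Real.pi / b * (1 / 2) := by
          apply mul_le_mul_of_nonneg_left hround (by positivity)
      _ = Real.pi / (2 * b) := by field_simp
  apply Real.cos_le_cos_of_nonneg_of_le_pi (abs_nonneg _) _ h2
  have hb1 : (1 : ℝ) ≤ b := by exact_mod_cast hb
  rw [div_le_iff₀ (by positivity)]
  nlinarith [Real.pi_pos]

lemma wk_mem (k : ℕ) : (sm a b 1 * sm a b 2) ^ k * (sm a b 0 * sm a b 2) ∈ Ev a b :=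
  mul_mem (pow_mem (Subgroup.subset_closure (by simp)) k) (Subgroup.subset_closure (by simp))

lemma wk_val (hσ : Sig a b σ) (hb : (b : ℝ) ≠ 0) (hc : 1 < c0 a b) (k : ℕ) :
    σ ((sm a b 1 * sm a b 2) ^ k * (sm a b 0 * sm a b 2)) o.1 =
    ![2 * Real.sqrt (c0 a b ^ 2 - 1) * c0 a b * Real.cos (k * (Real.pi / b)),
      2 * Real.sqrt (c0 a b ^ 2 - 1) * c0 a b * Real.sin (k * (Real.pi / b)), 0, 2 * c0 a b ^ 2 - 1] := by
  rw [map_mul, map_pow, sig12 hσ hb, rot_pow]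
  show rot (k * (Real.pi / b)) 1 (σ (sm a b 0 * sm a b 2) o.1) = _
  rw [sig02o hσ hc]
  funext i
  simp only [rot, LinearMap.coe_mk, AddHom.coe_mk, Matrix.cons_val]
  fin_cases i
  · simp
    ring
  · simp
    ring
  · simp
  · simp

/-- one step of the descent -/
lemma step (hσ : Sig a b σ) (h : Hyp a b) (hc : 1 < c0 a b) : ∃ κ l : ℝ, 1 ≤ κ ∧ 0 < l ∧ l < 1 ∧
    ∀ y : V4, mk y y = 1 → y 2 = 0 → κ < y 3 →
      ∃ w ∈ Ev a b, mk y (σ w o.1) ≤ l * y 3 := by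
  obtain ⟨ha2, hb2, -⟩ := h
  have hb0 : 0 < b := by omega
  have hb' : (0 : ℝ) < b := by exact_mod_cast hb0
  have hb2' : (2 : ℝ) ≤ b := by exact_mod_cast hb2
  have ha2' : (2 : ℝ) ≤ a := by exact_mod_cast ha2
  obtain ⟨c, hcc⟩ : ∃ c, c = c0 a b := ⟨_, rfl⟩
  obtain ⟨s, hs⟩ : ∃ s, s = Real.sqrt (c0 a b ^ 2 - 1) := ⟨_, rfl⟩
  obtain ⟨C, hC⟩ : ∃ C, C = Real.cos (Real.pi / (2 * b)) := ⟨_, rfl⟩
  obtain ⟨S, hS⟩ : ∃ S, S = Real.sin (Real.pi / (2 * b)) := ⟨_, rfl⟩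
  have hs2 : s ^ 2 = c ^ 2 - 1 := by rw [hs, hcc, Real.sq_sqrt (by nlinarith)]
  have hs0 : 0 < s := by
    rw [hs]
    apply Real.sqrt_pos.mpr
    nlinarith
  rw [← hcc] at hc
  have hφ : Real.pi / (2 * b) ≤ Real.pi / 4 := by
    apply div_le_div_of_nonneg_left Real.pi_pos.le (by norm_num)
    linarith
  have hφ0 : 0 < Real.pi / (2 * b) := by positivity
  have hCpos : 0 < C := by
    rw [hC]
    apply Real.cos_pos_of_mem_Ioo
    constructor
    · linarith [Real.pi_pos]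
    · linarith [Real.pi_pos]
  have hSpos : 0 < S := by
    rw [hS]
    apply Real.sin_pos_of_pos_of_lt_pi hφ0
    linarith [Real.pi_pos]
  have hSC : S ^ 2 + C ^ 2 = 1 := by
    rw [hS, hC]
    exact Real.sin_sq_add_cos_sq _
  have hcS : c * S < 1 := by
    have h1 : c * S = Real.cos (Real.pi / (2 * a)) := by
      rw [hcc, c0, ← hS, div_mul_cancel₀ _ hSpos.ne']
    rw [h1]
    have h2 : 0 < Real.pi / (2 * a) := by positivity
    have h3 : Real.pi / (2 * a) ≤ Real.pi / 4 := by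
      apply div_le_div_of_nonneg_left Real.pi_pos.le (by norm_num)
      linarith
    rw [← Real.cos_zero]
    apply Real.cos_lt_cos_of_nonneg_of_le_pi le_rfl _ h2
    linarith [Real.pi_pos]
  have hscC : s < c * C := by
    apply lt_of_pow_lt_pow_left₀ 2 (by positivity)
    have h1 : (c * S) ^ 2 < 1 := by
      have : 0 ≤ c * S := by positivity
      nlinarith
    have h2 : (c * C) ^ 2 = c ^ 2 - (c * S) ^ 2 := by
      linear_combination c ^ 2 * hSC
    rw [hs2, h2]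
    linarith
  -- the numbers
  obtain ⟨B, hB⟩ : ∃ B, B = 2 * s * c * C := ⟨_, rfl⟩
  have hBpos : 0 < B := by rw [hB]; positivity
  obtain ⟨δ, hδ⟩ : ∃ δ, δ = 1 - ((2 * c ^ 2 - 1) - B) := ⟨_, rfl⟩
  have hδpos : 0 < δ := by
    rw [hδ, hB]
    nlinarith
  refine ⟨max 1 (2 * B / δ), max (1 - δ / 2) (1 / 2), le_max_left _ _, lt_max_of_lt_right (by norm_num),
    max_lt (by linarith) (by norm_num), ?_⟩
  intro y hyy hy2 hy3
  have hy1 : 1 < y 3 := lt_of_le_of_lt (le_max_left _ _) hy3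
  have hyB : 2 * B / δ < y 3 := lt_of_le_of_lt (le_max_right _ _) hy3
  have hyy' : y 0 ^ 2 + y 1 ^ 2 = y 3 ^ 2 - 1 := by
    simp only [mk, hy2] at hyy
    linarith
  obtain ⟨r, hr⟩ : ∃ r, r = Real.sqrt (y 3 ^ 2 - 1) := ⟨_, rfl⟩
  have hr2 : r ^ 2 = y 3 ^ 2 - 1 := by rw [hr, Real.sq_sqrt (by nlinarith)]
  have hr0 : 0 < r := by
    rw [hr]
    apply Real.sqrt_pos.mpr
    nlinarith
  obtain ⟨θ, hθ1, hθ2⟩ := exists_angle (y 0 / r) (y 1 / r) (by
    rw [div_pow, div_pow, ← add_div, hyy', hr2, div_self (by nlinarith)])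
  obtain ⟨k, hk⟩ := near b hb0 r θ hr0.le
  rw [hθ1, hθ2, mul_div_cancel₀ _ hr0.ne', mul_div_cancel₀ _ hr0.ne', ← hC] at hk
  refine ⟨_, wk_mem k, ?_⟩
  rw [wk_val hσ hb'.ne' (by rw [← hcc]; exact hc), ← hs, ← hcc]
  have h5 : mk y ![2 * s * c * Real.cos (k * (Real.pi / b)), 2 * s * c * Real.sin (k * (Real.pi / b)), 0,
      2 * c ^ 2 - 1] = y 3 * (2 * c ^ 2 - 1) -
      2 * s * c * (y 0 * Real.cos (k * (Real.pi / b)) + y 1 * Real.sin (k * (Real.pi / b))) := by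
    simp only [mk, Matrix.cons_val]
    ring
  rw [h5]
  have h6 : 2 * s * c * (r * C) ≤
      2 * s * c * (y 0 * Real.cos (k * (Real.pi / b)) + y 1 * Real.sin (k * (Real.pi / b))) :=
    mul_le_mul_of_nonneg_left hk (by positivity)
  have h7 : y 3 - 1 ≤ r := by
    apply le_of_sq_le_sq _ hr0.le
    rw [hr2]
    nlinarith
  have h8 : B * (y 3 - 1) ≤ B * r := mul_le_mul_of_nonneg_left h7 hBpos.le
  have h9 : 2 * B < y 3 * δ := by
    rwa [div_lt_iff₀ hδpos] at hyB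
  have h10 : (1 - δ / 2) * y 3 ≤ max (1 - δ / 2) (1 / 2) * y 3 :=
    mul_le_mul_of_nonneg_right (le_max_left _ _) (by linarith)
  have h11 : 2 * s * c * (r * C) = B * r := by rw [hB]; ring
  rw [h11] at h6
  have h12 : y 3 * (2 * c ^ 2 - 1) = y 3 * (1 - δ + B) := by rw [hδ]; ring
  rw [h12]
  nlinarith

theorem dns (_h1 : T_CTR) (h2 : T_SGL) (h3 : T_ROO) : T_DNS := by
  intro a b σ h hσ
  obtain ⟨hc, -, -⟩ := h3 a b h
  obtain ⟨κ, l, hκ, hl0, hl1, hstep⟩ := step hσ h hc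
  refine ⟨κ, hκ, ?_⟩
  intro x hx
  by_contra hcon
  push Not at hcon
  have hind : ∀ n : ℕ, ∃ w ∈ Ev a b, mk x.1 (σ w o.1) ≤ l ^ n * mk x.1 o.1 := by
    intro n
    induction n with
    | zero => exact ⟨1, one_mem _, by simp⟩
    | succ n ih =>
      obtain ⟨w, hw, hwv⟩ := ih
      have hinv : ∀ z, σ w (σ w⁻¹ z) = z := by
        intro z
        have h5 : σ w (σ w⁻¹ z) = (σ w * σ w⁻¹) z := rfl
        rw [h5, ← map_mul, mul_inv_cancel, map_one]
        rfl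
      obtain ⟨hL, hL2⟩ := h2 a b σ h hσ w⁻¹
      obtain ⟨hM, -⟩ := h2 a b σ h hσ w
      have hy1 : mk (σ w⁻¹ x.1) (σ w⁻¹ x.1) = 1 := by rw [hL.1, x.2.1]
      have hy3 : (σ w⁻¹ x.1) 3 = mk x.1 (σ w o.1) := by
        rw [← mk_o (σ w⁻¹ x.1), ← hM.1, hinv]
      obtain ⟨w', hw', hw'v⟩ := hstep (σ w⁻¹ x.1) hy1 (by rw [hL2, hx]) (by
        rw [hy3]
        exact hcon w hw)
      refine ⟨w * w', mul_mem hw hw', ?_⟩
      have h5 : mk x.1 (σ (w * w') o.1) = mk (σ w⁻¹ x.1) (σ w' o.1) := by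
        rw [← hM.1 (σ w⁻¹ x.1), hinv, map_mul]
        rfl
      rw [h5, pow_succ]
      calc mk (σ w⁻¹ x.1) (σ w' o.1) ≤ l * (σ w⁻¹ x.1) 3 := hw'v
        _ = l * mk x.1 (σ w o.1) := by rw [hy3]
        _ ≤ l * (l ^ n * mk x.1 o.1) := mul_le_mul_of_nonneg_left hwv hl0.le
        _ = l ^ n * l * mk x.1 o.1 := by ring
  have hlim : Filter.Tendsto (fun n : ℕ => l ^ n * mk x.1 o.1) Filter.atTop (nhds 0) := by
    have := (tendsto_pow_atTop_nhds_zero_of_lt_one hl0.le hl1).mul_const (mk x.1 o.1)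
    rwa [zero_mul] at this
  obtain ⟨n, hn⟩ := (hlim.eventually (gt_mem_nhds (zero_lt_one))).exists
  obtain ⟨w, hw, hwv⟩ := hind n
  have := hcon w hw
  linarith

end Pool.Agent.H57.CP.Dns
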