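import Mathlib
import Pool.Agent.H8.CP.Oax

/-!
# MP_397744_co, module PCH: straight chains
-/

namespace Pool.Agent.H57.CP.Pch

open Pool.Agent.H57.CP Pool.Agent.H57.CP.Oax

lemma ch_comm (x y : H3) : ch x y = ch y x := mk_comm _ _

lemma exists_cosh (X : ℝ) (hX : 1 ≤ X) : ∃ L : ℝ, 0 ≤ L ∧ Real.cosh L = X := by
  refine ⟨Real.arsinh (Real.sqrt (X ^ 2 - 1)), ?_, ?_⟩
  · rw [Real.arsinh_nonneg_iff]
    exact Real.sqrt_nonneg _
  · rw [Real.cosh_arsinh, Real.sq_sqrt (by nlinarith)]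
    rw [show 1 + (X ^ 2 - 1) = X ^ 2 by ring, Real.sqrt_sq (by linarith)]

/-- numerical form of the triple condition -/
lemma triple (κ X A B C : ℝ) (hκ : 1 ≤ κ) (hX : 34 * κ ^ 4 ≤ X) (hA : A ≤ 4 * κ ^ 2 * X)
    (hB : B ≤ 4 * κ ^ 2 * X) (hC : 2 * X ^ 2 - 1 ≤ 4 * κ ^ 2 * C) :
    Real.sqrt (A - 1) + Real.sqrt (B - 1) < Real.sqrt (C - 1) := by
  have hκ2 : 1 ≤ κ ^ 2 := by nlinarith
  have hκ4 : κ ^ 2 ≤ κ ^ 4 := by nlinarith
  have hX0 : 0 < X := by nlinarith
  obtain ⟨Q, hQ⟩ : ∃ Q, Q = 4 * κ ^ 2 * X := ⟨_, rfl⟩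
  have hQ0 : 0 < Q := by rw [hQ]; positivity
  have h1 : Real.sqrt (A - 1) < Real.sqrt Q := Real.sqrt_lt_sqrt_iff_of_pos hQ0 |>.mpr (by linarith)
  have h2 : Real.sqrt (B - 1) < Real.sqrt Q := Real.sqrt_lt_sqrt_iff_of_pos hQ0 |>.mpr (by linarith)
  have h3 : Real.sqrt (4 * Q) = 2 * Real.sqrt Q := by
    rw [Real.sqrt_mul (by norm_num)]
    congr 1
    rw [show (4 : ℝ) = 2 ^ 2 by norm_num, Real.sqrt_sq (by norm_num)]
  have h4 : 4 * Q ≤ C - 1 := by
    rw [hQ]
    have h5 : 4 * κ ^ 2 * (4 * (4 * κ ^ 2 * X)) ≤ 4 * κ ^ 2 * (C - 1) := by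
      have h6 : 4 * κ ^ 2 * (4 * (4 * κ ^ 2 * X)) = 64 * κ ^ 4 * X := by ring
      rw [h6]
      have h7 : 34 * κ ^ 4 * X ≤ X * X := mul_le_mul_of_nonneg_right hX hX0.le
      have h8 : 1 ≤ κ ^ 4 := by linarith
      have h9 : κ ^ 4 * 34 ≤ κ ^ 4 * X := mul_le_mul_of_nonneg_left (by nlinarith) (by positivity)
      nlinarith
    exact le_of_mul_le_mul_left h5 (by positivity)
  have h5 := Real.sqrt_le_sqrt h4
  rw [h3] at h5
  linarith

/-- points of a geodesic in the plane -/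
noncomputable def xp (u0 u1 : ℝ) (h : u0 ^ 2 + u1 ^ 2 = 1) (s : ℝ) : H3 :=
  ⟨![Real.sinh s * u0, Real.sinh s * u1, 0, Real.cosh s], by
    simp only [mk, Matrix.cons_val]
    linear_combination Real.cosh_sq s - (Real.sinh s) ^ 2 * h, by
    simp only [Matrix.cons_val]
    exact Real.cosh_pos s⟩

lemma ch_xp (u0 u1 : ℝ) (h : u0 ^ 2 + u1 ^ 2 = 1) (s t : ℝ) :
    ch (xp u0 u1 h s) (xp u0 u1 h t) = Real.cosh (t - s) := by
  simp only [ch, xp, mk, Matrix.cons_val, Real.cosh_sub]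
  linear_combination (-Real.sinh s * Real.sinh t) * h

/-- coarse triangle inequality with two intermediate points -/
lemma tri (h1 : T_CTR) {κ : ℝ} (hκ : 1 ≤ κ) (x y x' y' : H3) (hx : ch x y ≤ κ) (hx' : ch x' y' ≤ κ) :
    ch y y' ≤ 4 * κ ^ 2 * ch x x' := by
  have a1 := (h1 y x y').2.2
  have a2 := (h1 x x' y').2.2
  rw [ch_comm y x] at a1
  have b1 := (h1 x y y).1
  have b2 := (h1 x x' x).1
  have b3 := (h1 x' y' y).1
  have b4 := (h1 x y' y).1
  calc ch y y' ≤ 2 * ch x y * ch x y' := a1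
    _ ≤ 2 * κ * ch x y' := by
      apply mul_le_mul_of_nonneg_right _ (by linarith)
      linarith
    _ ≤ 2 * κ * (2 * ch x x' * ch x' y') := mul_le_mul_of_nonneg_left a2 (by linarith)
    _ ≤ 2 * κ * (2 * ch x x' * κ) := by
      apply mul_le_mul_of_nonneg_left _ (by linarith)
      apply mul_le_mul_of_nonneg_left hx' (by linarith)
    _ = 4 * κ ^ 2 * ch x x' := by ring

theorem pch (h1 : T_CTR) (h2 : T_SGL) (h3 : T_DNS) (_h4 : T_ROO) : T_PCH := by
  intro a b σ h hσ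
  obtain ⟨κ, hκ, hdns⟩ := h3 a b σ h hσ
  have hκ2 : 1 ≤ κ ^ 2 := by nlinarith
  have hκ4 : 1 ≤ κ ^ 4 := by nlinarith
  obtain ⟨L, hL0, hL⟩ := exists_cosh (34 * κ ^ 4) (by linarith)
  have hLpos : 0 < L := by
    rcases hL0.lt_or_eq with h5 | h5
    · exact h5
    · rw [← h5, Real.cosh_zero] at hL
      linarith
  have hc2L : 1 ≤ Real.cosh (2 * L) := Real.one_le_cosh _
  refine ⟨4 * κ ^ 2 * Real.cosh (2 * L), by nlinarith, ?_⟩
  intro w hw
  by_cases hwM : dd σ w ≤ 4 * κ ^ 2 * Real.cosh (2 * L)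
  · exact Or.inl hwM
  right
  push Not at hwM
  -- the points of the orbit
  let Y : (cm a b).Group → H3 := fun g => ⟨σ g o.1, by rw [(h2 a b σ h hσ g).1.1, o.2.1],
    (h2 a b σ h hσ g).1.2 o⟩
  have hYv : ∀ g, (Y g).1 = σ g o.1 := fun g => rfl
  have hdd : ∀ g g', dd σ (g⁻¹ * g') = ch (Y g) (Y g') := by
    intro g g'
    rw [dd, ch, hYv, hYv, ← (h2 a b σ h hσ g).1.1 o.1]
    congr 1
    have h5 : σ g (σ (g⁻¹ * g') o.1) = (σ g * σ (g⁻¹ * g')) o.1 := rfl
    rw [h5, ← map_mul, mul_inv_cancel_left]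
  have hddw : dd σ w = (σ w o.1) 3 := by
    rw [dd, mk_comm, mk_o]
  obtain ⟨y, hy⟩ : ∃ y, y = σ w o.1 := ⟨_, rfl⟩
  rw [hddw, ← hy] at hwM
  have hy2 : y 2 = 0 := by
    rw [hy, (h2 a b σ h hσ w).2]
    simp [o]
  have hyy : mk y y = 1 := by rw [hy]; exact (Y w).2.1
  have hyy' : y 0 ^ 2 + y 1 ^ 2 = y 3 ^ 2 - 1 := by
    simp only [mk, hy2] at hyy
    linarith
  have hy3 : 1 < y 3 := by nlinarith
  obtain ⟨D, hD0, hD⟩ := exists_cosh (y 3) hy3.le
  have hDL : 2 * L < D := by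
    have h5 : Real.cosh (2 * L) < Real.cosh D := by
      rw [hD]
      nlinarith
    rw [Real.cosh_lt_cosh, abs_of_nonneg (by linarith), abs_of_nonneg hD0] at h5
    exact h5
  have hsD : 0 < Real.sinh D := Real.sinh_pos_iff.mpr (by linarith)
  have hsD2 : Real.sinh D ^ 2 = y 3 ^ 2 - 1 := by
    have := Real.cosh_sq D
    rw [hD] at this
    linarith
  have hu : (y 0 / Real.sinh D) ^ 2 + (y 1 / Real.sinh D) ^ 2 = 1 := by
    rw [div_pow, div_pow, ← add_div, hyy', hsD2, div_self (by nlinarith)]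
  -- the subdivision
  set N : ℕ := ⌊D / L⌋₊ with hN
  have hN2 : 2 ≤ N := by
    rw [hN, Nat.le_floor_iff (by positivity), le_div_iff₀ hLpos]
    push_cast
    linarith
  have hN0 : (0 : ℝ) < N := by
    have : (2 : ℝ) ≤ N := by exact_mod_cast hN2
    linarith
  have hNle : (N : ℝ) * L ≤ D := by
    have := Nat.floor_le (a := D / L) (by positivity)
    rwa [le_div_iff₀ hLpos] at this
  have hNlt : D < (N + 1) * L := by
    have := Nat.lt_floor_add_one (D / L)
    rwa [div_lt_iff₀ hLpos] at this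
  obtain ⟨δ, hδ⟩ : ∃ δ, δ = D / N := ⟨_, rfl⟩
  have hδ1 : L ≤ δ := by
    rw [hδ, le_div_iff₀ hN0]
    linarith
  have hδ2 : δ ≤ 2 * L := by
    rw [hδ, div_le_iff₀ hN0]
    have : (2 : ℝ) ≤ N := by exact_mod_cast hN2
    nlinarith
  have hNδ : (N : ℝ) * δ = D := by
    rw [hδ]
    field_simp
  let x : ℕ → H3 := fun i => xp _ _ hu (i * δ)
  have hx0 : x 0 = o := by
    apply Subtype.ext
    funext i
    simp only [x, xp, o]
    fin_cases i <;> simp
  have hxN : x N = Y w := by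
    apply Subtype.ext
    rw [hYv, ← hy]
    funext i
    simp only [x, xp, hNδ]
    fin_cases i
    · simp
      field_simp
    · simp
      field_simp
    · simp [hy2]
    · simp [hD]
  have hxx : ∀ i j : ℕ, ch (x i) (x (i + j)) = Real.cosh (j * δ) := by
    intro i j
    simp only [x]
    rw [ch_xp]
    congr 1
    push_cast
    ring
  choose G hG1 hG2 using fun i : ℕ => hdns (x i) (by simp [x, xp])
  let g : ℕ → (cm a b).Group := fun i => if i = 0 then 1 else if N ≤ i then w else G i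
  have hg0 : g 0 = 1 := by simp [g]
  have hgN : g N = w := by
    have : N ≠ 0 := by omega
    simp [g, this]
  have hgE : ∀ i, g i ∈ Ev a b := by
    intro i
    simp only [g]
    split_ifs
    · exact one_mem _
    · exact hw
    · exact hG1 i
  have hself : ∀ z : H3, ch z z = 1 := fun z => z.2.1
  have hnear : ∀ i, i ≤ N → ch (x i) (Y (g i)) ≤ κ := by
    intro i hi
    by_cases hi0 : i = 0
    · rw [hi0, hg0, hx0]
      have : Y 1 = o := by
        apply Subtype.ext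
        rw [hYv, map_one]
        rfl
      rw [this, hself]
      exact hκ
    · by_cases hiN : N ≤ i
      · have : i = N := le_antisymm hi hiN
        rw [this, hgN, hxN, hself]
        exact hκ
      · have h5 : g i = G i := by simp [g, hi0, hiN]
        rw [h5]
        exact hG2 i
  have hcδ : 34 * κ ^ 4 ≤ Real.cosh δ := by
    rw [← hL, Real.cosh_le_cosh, abs_of_nonneg hL0, abs_of_nonneg (by linarith)]
    exact hδ1
  have hcδ2 : Real.cosh δ ≤ Real.cosh (2 * L) := by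
    rw [Real.cosh_le_cosh, abs_of_nonneg (by linarith), abs_of_nonneg (by linarith)]
    exact hδ2
  have hup : ∀ i, i + 1 ≤ N → ch (Y (g i)) (Y (g (i + 1))) ≤ 4 * κ ^ 2 * Real.cosh δ := by
    intro i hi
    have h5 := tri h1 hκ _ _ _ _ (hnear i (by omega)) (hnear (i + 1) hi)
    rw [hxx i 1] at h5
    simpa using h5
  have hlow : ∀ i j, i + j ≤ N → Real.cosh (j * δ) ≤ 4 * κ ^ 2 * ch (Y (g i)) (Y (g (i + j))) := by
    intro i j hi
    have h5 := tri h1 hκ (Y (g i)) (x i) (Y (g (i + j))) (x (i + j)) (by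
      rw [ch_comm]
      exact hnear i (by omega)) (by
      rw [ch_comm]
      exact hnear (i + j) hi)
    rwa [hxx i j] at h5
  refine ⟨N, g, hN2, hg0, hgN, hgE, ?_, ?_⟩
  · intro i hi
    rw [hdd]
    constructor
    · have h5 := hlow i 1 hi
      rw [Nat.cast_one, one_mul] at h5
      by_contra hcon
      push Not at hcon
      have h6 : 4 * κ ^ 2 * ch (Y (g i)) (Y (g (i + 1))) ≤ 4 * κ ^ 2 * 1 :=
        mul_le_mul_of_nonneg_left hcon (by positivity)
      have h7 : κ ^ 2 ≤ κ ^ 4 := by nlinarith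
      nlinarith
    · have h5 := hup i hi
      have h6 : 4 * κ ^ 2 * Real.cosh δ ≤ 4 * κ ^ 2 * Real.cosh (2 * L) :=
        mul_le_mul_of_nonneg_left hcδ2 (by positivity)
      linarith
  · intro i hi
    rw [hdd, hdd, hdd]
    apply triple κ (Real.cosh δ) _ _ _ hκ hcδ (hup i (by omega)) (hup (i + 1) (by omega))
    have h5 := hlow i 2 hi
    have h6 : Real.cosh ((2 : ℕ) * δ) = 2 * Real.cosh δ ^ 2 - 1 := by
      push_cast
      rw [Real.cosh_two_mul]
      have := Real.cosh_sq δ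
      linarith
    rw [h6] at h5
    exact h5

end Pool.Agent.H57.CP.Pch
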