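import Mathlib
import Pool.Agent.H8.CP.Oax

/-!
# MP_397744_co, module NGB: T is a half-turn in general position
-/

namespace Pool.Agent.H57.CP.Ngb

open Pool.Agent.H57.CP Pool.Agent.H57.CP.Oax

lemma exists_invsqrt {N : ℝ} (h : 0 < N) : ∃ c : ℝ, 0 < c ∧ c * c * N = 1 :=
  ⟨(Real.sqrt N)⁻¹, by positivity, by
    rw [← mul_inv, Real.mul_self_sqrt h.le, inv_mul_cancel₀ h.ne']⟩

theorem ngb (h1 : T_LOR) (h2 : T_MKI) (h3 : T_EXT) (h4 : T_SPN) : T_NGB := by
  intro S T t d x z hN hx0 hst hz hTT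
  obtain ⟨hcore, hS, hd, hx⟩ := hN
  have hxpos : 0 < x := lt_of_le_of_ne hx (Ne.symm hx0)
  set τ : ℝ := Real.sqrt (1 + x ^ 2 + 0 ^ 2 + z ^ 2) with hτ
  have hτ2 : τ * τ = 1 + x ^ 2 + z ^ 2 := by
    rw [hτ, Real.mul_self_sqrt (by positivity)]
    ring
  have hτ0 : 0 ≤ τ := Real.sqrt_nonneg _
  have hτ1 : 1 < τ := by nlinarith [sq_nonneg z, mul_pos hxpos hxpos]
  have hv' : (pt x 0 z).1 = ![x, 0, z, τ] := rfl
  obtain ⟨A, hA, hAT⟩ := h3 T hcore.iT
  have hAo : A o.1 = ![x, 0, z, τ] := by rw [hAT o, hcore.Tv, hv']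
  have hAv : A ![x, 0, z, τ] = o.1 := by rw [← hv', hAT, hcore.Tv']
  have hAA : A * A = 1 := by
    apply h4
    intro y
    have h5 : (A * A) y.1 = A (A y.1) := rfl
    rw [h5, hAT, hAT]
    have h6 : T (T y) = y := by
      have := congrArg (fun f : Equiv.Perm H3 => f y) hTT
      exact this
    rw [h6]
    rfl
  have hAAx : ∀ y, A (A y) = y := fun y => by
    have := congrArg (fun f : V4 →ₗ[ℝ] V4 => f y) hAA
    exact this
  have hsym : ∀ y w, mk (A y) w = mk y (A w) := by
    intro y w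
    rw [← hA.1 (A y) w, hAAx]
  obtain ⟨κ, hκ, hκ2⟩ := exists_invsqrt (N := x ^ 2 + z ^ 2) (by positivity)
  -- the vector e 1
  have f3 : A (e 1) 3 = 0 := by
    rw [← mk_o (A (e 1)), hsym, hAo]
    simp [mk, e_apply]
  have f02 : A (e 1) 0 * x + A (e 1) 2 * z = 0 := by
    have h5 : mk (A (e 1)) ![x, 0, z, τ] = 0 := by
      rw [hsym, hAv, mk_o]
      simp [e_apply]
    simp only [mk, Matrix.cons_val, f3] at h5
    linarith
  obtain ⟨n, hn⟩ : ∃ n : V4, n = ![-κ * z, 0, κ * x, 0] := ⟨_, rfl⟩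
  have g3 : A n 3 = 0 := by
    rw [← mk_o (A n), hsym, hAo, hn]
    simp only [mk, Matrix.cons_val]
    ring
  have g02 : A n 0 * x + A n 2 * z = 0 := by
    have h5 : mk (A n) ![x, 0, z, τ] = 0 := by
      rw [hsym, hAv, mk_o, hn]
      simp
    simp only [mk, Matrix.cons_val, g3] at h5
    linarith
  obtain ⟨p, hp⟩ : ∃ p, p = A (e 1) 1 := ⟨_, rfl⟩
  obtain ⟨r, hr⟩ : ∃ r, r = κ * (-z * A (e 1) 0 + x * A (e 1) 2) := ⟨_, rfl⟩
  obtain ⟨q, hq⟩ : ∃ q, q = κ * (-z * A n 0 + x * A n 2) := ⟨_, rfl⟩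
  have hAe1 : A (e 1) = ![-r * κ * z, p, r * κ * x, 0] := by
    funext i
    fin_cases i
    · show A (e 1) 0 = -r * κ * z
      rw [hr]
      linear_combination (-A (e 1) 0) * hκ2 + κ * κ * x * f02
    · show A (e 1) 1 = p
      exact hp.symm
    · show A (e 1) 2 = r * κ * x
      rw [hr]
      linear_combination (-A (e 1) 2) * hκ2 + κ * κ * z * f02
    · exact f3
  have hAn1 : A n 1 = r := by
    have h5 := hsym (e 1) n
    have h6 : mk (e 1) (A n) = - A n 1 := by simp [mk, e_apply]
    have h7 : mk (A (e 1)) n = - (r * (κ * κ * (x ^ 2 + z ^ 2))) := by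
      rw [hAe1, hn]
      simp only [mk, Matrix.cons_val]
      ring
    rw [h6, h7, hκ2] at h5
    linarith
  have hAn : A n = ![-q * κ * z, r, q * κ * x, 0] := by
    funext i
    fin_cases i
    · show A n 0 = -q * κ * z
      rw [hq]
      linear_combination (-A n 0) * hκ2 + κ * κ * x * g02
    · exact hAn1
    · show A n 2 = q * κ * x
      rw [hq]
      linear_combination (-A n 2) * hκ2 + κ * κ * z * g02
    · exact g3
  have hpr : p ^ 2 + r ^ 2 = 1 := by
    have h5 := hA.1 (e 1) (e 1)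
    rw [hAe1] at h5
    simp only [mk, Matrix.cons_val, e_apply] at h5
    simp at h5
    linear_combination (-1) * h5 - r ^ 2 * hκ2
  have hrq : r * (p + q) = 0 := by
    have h5 := hA.1 (e 1) n
    rw [hAe1, hAn] at h5
    rw [hn] at h5
    simp only [mk, Matrix.cons_val, e_apply] at h5
    simp at h5
    linear_combination (-1) * h5 - r * q * hκ2
  -- chirality
  have hr0 : r ≠ 0 := by
    intro hr0
    apply hcore.noR
    have he1 : mk (e 1) (e 1) = -1 := by simp [mk, e_apply]
    obtain ⟨hRL, hRR⟩ := h1.2.2 (e 1) he1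
    obtain ⟨R, hR, hRE⟩ := h2 _ hRL
    have hrefl : ∀ y : V4, refl (e 1) y = ![y 0, -y 1, y 2, y 3] := by
      intro y
      funext i
      simp only [refl, LinearMap.coe_mk, AddHom.coe_mk, mk, e_apply]
      fin_cases i <;> simp
      ring
    have hrefl' : ∀ y : V4, refl (e 1) y = y + (2 * mk (e 1) y) • e 1 := by
      intro y
      funext i
      simp only [refl, LinearMap.coe_mk, AddHom.coe_mk, Pi.add_apply, Pi.smul_apply, smul_eq_mul]
    refine ⟨R, hR, ?_, ?_, ?_⟩
    · apply Subtype.ext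
      rw [← hRE, hrefl]
      funext i
      fin_cases i <;> simp [o]
    · apply Subtype.ext
      rw [← hRE, hrefl, hv']
      funext i
      fin_cases i <;> simp
    · intro y _
      constructor
      · rw [Equiv.Perm.eq_inv_iff_eq]
        apply Subtype.ext
        rw [← hS, ← hRE, ← hS, ← hRE, hrefl, hrefl]
        have hd2 : d * d = 1 := by rcases hd with h | h <;> rw [h] <;> norm_num
        have hsc := Real.sin_sq_add_cos_sq t
        funext i
        simp only [rot, LinearMap.coe_mk, AddHom.coe_mk]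
        fin_cases i
        · simp
          linear_combination y.1 0 * hsc
        · simp
          linear_combination (-y.1 1) * hsc
        · simp
          linear_combination y.1 2 * hd2
        · simp
      · apply Subtype.ext
        rw [← hRE, ← hAT, ← hAT, ← hRE, hrefl', hrefl', map_add, map_smul]
        have h5 : A (e 1) = p • e 1 := by
          rw [hAe1, hr0]
          funext i
          fin_cases i <;> simp [e_apply]
        have h6 : mk (e 1) (A y.1) = p * mk (e 1) y.1 := by
          rw [← hsym, h5]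
          simp only [mk, Pi.smul_apply, smul_eq_mul]
          ring
        rw [h6, h5, smul_smul]
        congr 2
        ring
  have hqp : q = -p := by
    have := (mul_eq_zero.mp hrq).resolve_left hr0
    linarith
  have hp1 : 0 < 2 + 2 * p := by
    have hr2 : 0 < r ^ 2 := by positivity
    nlinarith
  obtain ⟨ω, hω, hω2⟩ := exists_invsqrt hp1
  obtain ⟨σ, hσ, hσ2⟩ := exists_invsqrt (N := 2 + 2 * τ) (by linarith)
  refine ⟨![σ * x, 0, σ * z, σ * (1 + τ)], ![-ω * r * κ * z, ω * (p + 1), ω * r * κ * x, 0], ⟨?_, ?_, ?_, ?_,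
    ?_, ?_, ?_, ?_, ?_, ?_⟩, ?_⟩
  · simp only [mk, Matrix.cons_val]
    linear_combination hσ2 + σ * σ * hτ2
  · simp only [mk, Matrix.cons_val]
    linear_combination (-ω ^ 2 * r ^ 2) * hκ2 - hω2 - ω ^ 2 * hpr
  · simp only [mk, Matrix.cons_val]
    ring
  · simp
  · simp
  · simp only [Matrix.cons_val]
    positivity
  · simp only [Matrix.cons_val]
    positivity
  · simp only [Matrix.cons_val]
    exact mul_ne_zero hσ.ne' hz
  · simp only [Matrix.cons_val]
    exact mul_ne_zero hω.ne' (by linarith)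
  · simp only [Matrix.cons_val]
    exact mul_ne_zero (mul_ne_zero (mul_ne_zero hω.ne' hr0) hκ.ne') hx0
  · intro y
    have h5 : A = ht ![σ * x, 0, σ * z, σ * (1 + τ)] ![-ω * r * κ * z, ω * (p + 1), ω * r * κ * x, 0] := by
      apply LinearMap.ext
      intro y
      obtain ⟨α, hα⟩ : ∃ α, α = κ * κ * (x * y 0 + z * y 2) := ⟨_, rfl⟩
      obtain ⟨β, hβ⟩ : ∃ β, β = κ * (-z * y 0 + x * y 2) := ⟨_, rfl⟩
      have hy0 : y 0 = α * x - κ * z * β := by
        rw [hα, hβ]
        linear_combination (-y 0) * hκ2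
      have hy2 : y 2 = α * z + κ * x * β := by
        rw [hα, hβ]
        linear_combination (-y 2) * hκ2
      have hy : y = y 1 • e 1 + α • ![x, 0, z, τ] + β • n + (y 3 - α * τ) • o.1 := by
        have he1 : e 1 = ![0, 1, 0, 0] := by
          funext i
          fin_cases i <;> simp [e_apply]
        rw [hn, he1]
        funext i
        fin_cases i
        · show y 0 = _
          rw [hy0]
          simp [o]
          ring
        · show y 1 = _
          simp [o]
        · show y 2 = _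
          rw [hy2]
          simp [o]
          ring
        · show y 3 = _
          simp [o]
      have hAy : A y = y 1 • A (e 1) + α • A ![x, 0, z, τ] + β • A n + (y 3 - α * τ) • A o.1 := by
        conv_lhs => rw [hy]
        rw [map_add, map_add, map_add, map_smul, map_smul, map_smul, map_smul]
      rw [hAy, hAe1, hAv, hAn, hAo, hqp]
      funext i
      simp only [ht, LinearMap.coe_mk, AddHom.coe_mk, mk, Matrix.cons_val, hy0, hy2]
      fin_cases i
      · simp [o]
        rw [hy0]
        linear_combination (-(y 3 * x - (τ - 1) * α * x)) * hσ2 + (y 1 * r * κ * z + (1 - p) * κ * z * β) * hω2 +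
          (2 * ω ^ 2 * κ * z * β) * hpr - (2 * σ ^ 2 * α * x) * hτ2 + (2 * ω ^ 2 * r ^ 2 * κ * z * β) * hκ2
      · simp [o]
        linear_combination (-(2 * ω ^ 2 * r * β * (p + 1))) * hκ2 - (r * β + (p + 1) * y 1) * hω2
      · simp [o]
        rw [hy2]
        linear_combination (-(y 3 * z - (τ - 1) * α * z)) * hσ2 - (y 1 * r * κ * x + (1 - p) * κ * x * β) * hω2 -
          (2 * ω ^ 2 * κ * x * β) * hpr - (2 * σ ^ 2 * α * z) * hτ2 - (2 * ω ^ 2 * r ^ 2 * κ * x * β) * hκ2
      · simp [o]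
        linear_combination (-((1 + τ) * y 3 - α * (x ^ 2 + z ^ 2))) * hσ2 - α * hτ2
    rw [← h5]
    exact hAT y

end Pool.Agent.H57.CP.Ngb
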